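import Mathlib
import Pool.Agent.Lib.MP_d7b30a_nt.Sieve

/-!
The conjecture fails at `n = 600000`: for every `p ≤ p_n` the window `(p + n, p + 2 n]` holds
fewer primes than the window `(p, p + n]`.
-/

namespace Pool.Agent.Results.MP_d7b30a_nt.Counterexample

open Pool.Agent.Lib.MP_d7b30a_nt

theorem check_ok : check 32 280015 18750 57 56 19 = true := by decide +kernel

theorem result : ¬ ∀ n : ℕ, 1 < n → ∃ p : ℕ, p.Prime ∧ p ≤ Nat.nth Nat.Prime (n - 1) ∧
    (Nat.primeCounting (p + 2 * n) : ℤ) - Nat.primeCounting (p + n)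
      = (Nat.primeCounting (p + n) : ℤ) - Nat.primeCounting p ∧
    0 < (Nat.primeCounting (p + n) : ℤ) - Nat.primeCounting p := by
  intro h
  obtain ⟨p, _, hp, h1, _⟩ := h (32 * 18750) (by norm_num)
  have h2 := check_sound 32 280015 18750 57 56 19 (by norm_num) (by norm_num) (by norm_num)
    (by norm_num) (by norm_num) check_ok p hp
  omega

end Pool.Agent.Results.MP_d7b30a_nt.Counterexample
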